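import Mathlib

set_option autoImplicit false

namespace Pool.Agent.Results.MP_bbc03c_al.RightAltCE

universe u

/-- `x` lies in the associative center `N(R)`. -/
def InN {R : Type u} [NonAssocRing R] (x : R) : Prop :=
  ∀ a b : R, (x * a) * b = x * (a * b) ∧ (a * x) * b = a * (x * b) ∧ (a * b) * x = a * (b * x)

/-- `x` lies in the center `Z(R) = N(R) ∩ K(R)`. -/
def InZ {R : Type u} [NonAssocRing R] (x : R) : Prop :=
  InN x ∧ ∀ a : R, x * a = a * x

/-- `R` is centrally essential: `Z(R) r ∩ Z(R) ≠ 0` for all nonzero `r`. -/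
def CentrallyEssential (R : Type u) [NonAssocRing R] : Prop :=
  ∀ r : R, r ≠ 0 → ∃ z : R, InZ z ∧ InZ (z * r) ∧ z * r ≠ 0

/-- `(a, b, b) = 0` for all `a`, `b`. -/
def RightAlternative (R : Type u) [NonAssocRing R] : Prop :=
  ∀ a b : R, (a * b) * b = a * (b * b)

/-- `(a, a, b) = 0` for all `a`, `b`. -/
def LeftAlternative (R : Type u) [NonAssocRing R] : Prop :=
  ∀ a b : R, (a * a) * b = a * (a * b)

/-- The underlying space of the six-dimensional algebra: coordinates with respect to the basis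
`1, a, b, p, t, w`. -/
@[ext] structure Alg (K : Type u) : Type u where
  /-- coefficient of `1` -/
  o : K
  /-- coefficient of `a` -/
  a : K
  /-- coefficient of `b` -/
  b : K
  /-- coefficient of `p` -/
  p : K
  /-- coefficient of `t` -/
  t : K
  /-- coefficient of `w` -/
  w : K

namespace Alg

variable {K : Type u} [CommRing K]

instance : Zero (Alg K) := ⟨⟨0, 0, 0, 0, 0, 0⟩⟩
instance : One (Alg K) := ⟨⟨1, 0, 0, 0, 0, 0⟩⟩
instance : Add (Alg K) := ⟨fun x y => ⟨x.o + y.o, x.a + y.a, x.b + y.b, x.p + y.p, x.t + y.t,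
  x.w + y.w⟩⟩
instance : Neg (Alg K) := ⟨fun x => ⟨-x.o, -x.a, -x.b, -x.p, -x.t, -x.w⟩⟩
instance : SMul K (Alg K) := ⟨fun k x => ⟨k * x.o, k * x.a, k * x.b, k * x.p, k * x.t, k * x.w⟩⟩
/-- `a b = p`, `b b = t`, `a p = p a = b p = p b = a t = t a = w`, and all other products of two of
the basis vectors `a, b, p, t, w` are zero. -/
instance : Mul (Alg K) := ⟨fun x y => ⟨x.o * y.o, x.o * y.a + x.a * y.o, x.o * y.b + x.b * y.o,
  x.o * y.p + x.p * y.o + x.a * y.b, x.o * y.t + x.t * y.o + x.b * y.b,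
  x.o * y.w + x.w * y.o + (x.a * y.p + x.p * y.a) + (x.b * y.p + x.p * y.b) +
    (x.a * y.t + x.t * y.a)⟩⟩

@[simp] theorem zero_o : (0 : Alg K).o = 0 := rfl
@[simp] theorem zero_a : (0 : Alg K).a = 0 := rfl
@[simp] theorem zero_b : (0 : Alg K).b = 0 := rfl
@[simp] theorem zero_p : (0 : Alg K).p = 0 := rfl
@[simp] theorem zero_t : (0 : Alg K).t = 0 := rfl
@[simp] theorem zero_w : (0 : Alg K).w = 0 := rfl
@[simp] theorem one_o : (1 : Alg K).o = 1 := rfl
@[simp] theorem one_a : (1 : Alg K).a = 0 := rfl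
@[simp] theorem one_b : (1 : Alg K).b = 0 := rfl
@[simp] theorem one_p : (1 : Alg K).p = 0 := rfl
@[simp] theorem one_t : (1 : Alg K).t = 0 := rfl
@[simp] theorem one_w : (1 : Alg K).w = 0 := rfl
@[simp] theorem add_o (x y : Alg K) : (x + y).o = x.o + y.o := rfl
@[simp] theorem add_a (x y : Alg K) : (x + y).a = x.a + y.a := rfl
@[simp] theorem add_b (x y : Alg K) : (x + y).b = x.b + y.b := rfl
@[simp] theorem add_p (x y : Alg K) : (x + y).p = x.p + y.p := rfl
@[simp] theorem add_t (x y : Alg K) : (x + y).t = x.t + y.t := rfl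
@[simp] theorem add_w (x y : Alg K) : (x + y).w = x.w + y.w := rfl
@[simp] theorem neg_o (x : Alg K) : (-x).o = -x.o := rfl
@[simp] theorem neg_a (x : Alg K) : (-x).a = -x.a := rfl
@[simp] theorem neg_b (x : Alg K) : (-x).b = -x.b := rfl
@[simp] theorem neg_p (x : Alg K) : (-x).p = -x.p := rfl
@[simp] theorem neg_t (x : Alg K) : (-x).t = -x.t := rfl
@[simp] theorem neg_w (x : Alg K) : (-x).w = -x.w := rfl
@[simp] theorem smul_o (k : K) (x : Alg K) : (k • x).o = k * x.o := rfl
@[simp] theorem smul_a (k : K) (x : Alg K) : (k • x).a = k * x.a := rfl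
@[simp] theorem smul_b (k : K) (x : Alg K) : (k • x).b = k * x.b := rfl
@[simp] theorem smul_p (k : K) (x : Alg K) : (k • x).p = k * x.p := rfl
@[simp] theorem smul_t (k : K) (x : Alg K) : (k • x).t = k * x.t := rfl
@[simp] theorem smul_w (k : K) (x : Alg K) : (k • x).w = k * x.w := rfl
@[simp] theorem mul_o (x y : Alg K) : (x * y).o = x.o * y.o := rfl
@[simp] theorem mul_a (x y : Alg K) : (x * y).a = x.o * y.a + x.a * y.o := rfl
@[simp] theorem mul_b (x y : Alg K) : (x * y).b = x.o * y.b + x.b * y.o := rfl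
@[simp] theorem mul_p (x y : Alg K) : (x * y).p = x.o * y.p + x.p * y.o + x.a * y.b := rfl
@[simp] theorem mul_t (x y : Alg K) : (x * y).t = x.o * y.t + x.t * y.o + x.b * y.b := rfl
@[simp] theorem mul_w (x y : Alg K) : (x * y).w = x.o * y.w + x.w * y.o +
  (x.a * y.p + x.p * y.a) + (x.b * y.p + x.p * y.b) + (x.a * y.t + x.t * y.a) := rfl

instance : NonAssocRing (Alg K) where
  add_assoc a b c := by ext <;> simp [add_assoc]
  zero_add a := by ext <;> simp
  add_zero a := by ext <;> simp
  add_comm a b := by ext <;> simp [add_comm]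
  neg_add_cancel a := by ext <;> simp
  one_mul a := by ext <;> simp
  mul_one a := by ext <;> simp
  zero_mul a := by ext <;> simp
  mul_zero a := by ext <;> simp
  left_distrib a b c := by ext <;> simp <;> ring
  right_distrib a b c := by ext <;> simp <;> ring
  nsmul := nsmulRec
  zsmul := zsmulRec

instance : Module K (Alg K) where
  one_smul a := by ext <;> simp
  mul_smul a b c := by ext <;> simp [mul_assoc]
  smul_zero a := by ext <;> simp
  smul_add a b c := by ext <;> simp [mul_add]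
  add_smul a b c := by ext <;> simp [add_mul]
  zero_smul a := by ext <;> simp

instance : IsScalarTower K (Alg K) (Alg K) :=
  ⟨fun c a b => by ext <;> simp [smul_eq_mul] <;> ring⟩

instance : SMulCommClass K (Alg K) (Alg K) :=
  ⟨fun c a b => by ext <;> simp [smul_eq_mul] <;> ring⟩

/-- The coordinates. -/
def coord : Alg K ≃ₗ[K] (Fin 6 → K) where
  toFun x := ![x.o, x.a, x.b, x.p, x.t, x.w]
  invFun v := ⟨v 0, v 1, v 2, v 3, v 4, v 5⟩
  left_inv s := rfl
  right_inv v := by
    funext i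
    fin_cases i <;> rfl
  map_add' s t := by
    funext i
    fin_cases i <;> rfl
  map_smul' s t := by
    funext i
    fin_cases i <;> rfl

end Alg

theorem rightAlt (K : Type u) [CommRing K] : RightAlternative (Alg K) := by
  intro x y
  ext <;> simp <;> ring

theorem not_leftAlt (K : Type u) [CommRing K] [Nontrivial K] : ¬ LeftAlternative (Alg K) := by
  intro h
  have h1 := congrArg Alg.w (h ⟨0, 1, 0, 0, 0, 0⟩ ⟨0, 0, 1, 0, 0, 0⟩)
  simp at h1

theorem inZ_iff {K : Type u} [CommRing K] (x : Alg K) : InZ x ↔ x.a = 0 ∧ x.b = 0 := by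
  constructor
  · intro h
    have h1 := congrArg Alg.p (h.2 ⟨0, 1, 0, 0, 0, 0⟩)
    have h2 := congrArg Alg.p (h.2 ⟨0, 0, 1, 0, 0, 0⟩)
    simp at h1 h2
    exact ⟨h2, h1.symm⟩
  · rintro ⟨h1, h2⟩
    refine ⟨fun y z => ⟨?_, ?_, ?_⟩, fun y => ?_⟩ <;> ext <;> simp [h1, h2] <;> ring

theorem cE (K : Type u) [CommRing K] [IsDomain K] : CentrallyEssential (Alg K) := by
  intro r hr
  by_cases ho : r.o = 0
  · by_cases hab : r.a = 0 ∧ r.b = 0
    · exact ⟨1, (inZ_iff _).2 ⟨rfl, rfl⟩, by rw [one_mul]; exact (inZ_iff _).2 hab,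
        by rw [one_mul]; exact hr⟩
    · by_cases h1 : r.a + r.b = 0
      · refine ⟨⟨0, 0, 0, 0, 1, 0⟩, (inZ_iff _).2 ⟨rfl, rfl⟩, ?_, ?_⟩
        · rw [inZ_iff]; simp [ho]
        · intro h
          have h2 := congrArg Alg.w h
          simp at h2
          exact hab ⟨h2, by simpa [h2] using h1⟩
      · refine ⟨⟨0, 0, 0, 1, 0, 0⟩, (inZ_iff _).2 ⟨rfl, rfl⟩, ?_, ?_⟩
        · rw [inZ_iff]; simp [ho]
        · intro h
          have h2 := congrArg Alg.w h
          simp at h2
          exact h1 h2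
  · refine ⟨⟨0, 0, 0, 0, 0, 1⟩, (inZ_iff _).2 ⟨rfl, rfl⟩, ?_, ?_⟩
    · rw [inZ_iff]; simp
    · intro h
      have h2 := congrArg Alg.w h
      simp at h2
      exact ho h2

/-- Over every field `K` there is a six-dimensional unital (not necessarily associative)
`K`-algebra which is right-alternative and centrally essential but not alternative. -/
theorem result (K : Type u) [Field K] :
    ∃ (R : Type u) (_ : NonAssocRing R) (_ : Module K R) (_ : IsScalarTower K R R)
      (_ : SMulCommClass K R R),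
      Module.finrank K R = 6 ∧ RightAlternative R ∧ ¬ LeftAlternative R ∧
        CentrallyEssential R := by
  refine ⟨Alg K, inferInstance, inferInstance, inferInstance, inferInstance, ?_, rightAlt K,
    not_leftAlt K, cE K⟩
  rw [LinearEquiv.finrank_eq (Alg.coord (K := K))]
  exact Module.finrank_fin_fun K

end Pool.Agent.Results.MP_bbc03c_al.RightAltCE
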